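import Mathlib

/-! Principal minors, principal pivot transform, skew-Hermitian matrices over valued fields. -/

set_option autoImplicit false

open Matrix
open scoped NNReal

namespace Pool.Agent.Q244.DM

section ring

variable {R : Type} [CommRing R] {ι : Type} [Fintype ι] [DecidableEq ι]

/-- The principal minor of `A` on the index set `S`. -/
def pm (A : Matrix ι ι R) (S : Finset ι) : R :=
  (A.submatrix (Subtype.val : {i // i ∈ S} → ι) (Subtype.val : {i // i ∈ S} → ι)).det

/-- Columns of `A` on `S` and columns of the identity outside `S`. -/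
def mix (A : Matrix ι ι R) (S : Finset ι) : Matrix ι ι R :=
  fun i j => if j ∈ S then A i j else (1 : Matrix ι ι R) i j

theorem det_mix (A : Matrix ι ι R) (S : Finset ι) : (mix A S).det = pm A S := by
  classical
  rw [Matrix.twoBlockTriangular_det (mix A S) (fun i => i ∉ S)]
  · have h1 : (toSquareBlockProp (mix A S) fun i => i ∉ S) = 1 := by
      ext i j
      simp only [toSquareBlockProp_def, mix, Matrix.of_apply]
      rw [if_neg j.2]
      simp only [Matrix.one_apply, Subtype.ext_iff]
    rw [h1, Matrix.det_one, one_mul]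
    unfold pm
    let e : {i // i ∈ S} ≃ {i // ¬ i ∉ S} := Equiv.subtypeEquivRight (fun i => by simp)
    rw [← Matrix.det_submatrix_equiv_self e]
    congr 1
    ext i j
    simp [toSquareBlockProp_def, mix, e]
  · intro i hi j hj
    simp only [mix]
    rw [if_neg hj, Matrix.one_apply_ne]
    rintro rfl
    exact hi hj

theorem mix_eq (A : Matrix ι ι R) (S : Finset ι) :
    mix A S = A * diagonal (fun j => if j ∈ S then 1 else 0) +
      (1 - diagonal (fun j => if j ∈ S then 1 else 0)) := by
  ext i j
  simp only [mix, Matrix.add_apply, Matrix.mul_diagonal, Matrix.sub_apply]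
  by_cases h : j ∈ S
  · simp only [h, if_true, mul_one]
    by_cases hij : i = j
    · subst hij; simp [h]
    · simp [Matrix.one_apply_ne hij, Matrix.diagonal_apply_ne _ hij]
  · simp only [h, if_false, mul_zero, zero_add]
    by_cases hij : i = j
    · subst hij; simp [h]
    · simp [Matrix.one_apply_ne hij, Matrix.diagonal_apply_ne _ hij]

theorem mix_compl_eq (A : Matrix ι ι R) (S : Finset ι) :
    mix A Sᶜ = A * (1 - diagonal (fun j => if j ∈ S then 1 else 0)) +
      diagonal (fun j => if j ∈ S then 1 else 0) := by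
  ext i j
  simp only [mix, Matrix.add_apply, Matrix.mul_sub, Matrix.mul_one, Matrix.mul_diagonal,
    Matrix.sub_apply, Finset.mem_compl]
  by_cases h : j ∈ S
  · simp only [h, not_true, if_false, if_true, mul_one, sub_self, zero_add]
    by_cases hij : i = j
    · subst hij; simp [h]
    · simp [Matrix.one_apply_ne hij, Matrix.diagonal_apply_ne _ hij]
  · simp only [h, not_false_iff, if_true, if_false, mul_zero, sub_zero]
    by_cases hij : i = j
    · subst hij; simp [h]
    · simp [Matrix.diagonal_apply_ne _ hij]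

theorem mul_mix (A A' : Matrix ι ι R) (S T : Finset ι) (h : mix A S * A' = mix A Sᶜ) :
    mix A S * mix A' T = mix A (symmDiff S T) := by
  ext i j
  rw [Matrix.mul_apply]
  by_cases hT : j ∈ T
  · have h1 : ∑ k, mix A S i k * mix A' T k j = mix A Sᶜ i j := by
      rw [← h, Matrix.mul_apply]
      apply Finset.sum_congr rfl
      intro k _
      simp only [mix, hT, if_true]
    rw [h1]
    simp only [mix, Finset.mem_compl, Finset.mem_symmDiff, hT, not_true, and_false, true_and,
      false_or]
  · have h1 : ∑ k, mix A S i k * mix A' T k j = mix A S i j := by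
      have : ∀ k, mix A' T k j = (1 : Matrix ι ι R) k j := fun k => by simp only [mix, hT, if_false]
      simp only [this, ← Matrix.mul_apply, Matrix.mul_one]
    rw [h1]
    simp only [mix, Finset.mem_symmDiff, hT, not_false_iff, and_true, false_and, or_false]

end ring

section pivot

variable {K : Type} [Field K] [StarRing K] {ι : Type} [Fintype ι] [DecidableEq ι]

/-- The principal pivot transform of a skew-Hermitian matrix is skew-Hermitian. -/
theorem exists_pivot (A : Matrix ι ι K) (hA : Aᴴ = -A) (S : Finset ι) (hS : pm A S ≠ 0) :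
    ∃ A' : Matrix ι ι K, A'ᴴ = -A' ∧ ∀ T, pm A S * pm A' T = pm A (symmDiff S T) := by
  set D : Matrix ι ι K := diagonal (fun j => if j ∈ S then 1 else 0) with hD
  have hDD : D * D = D := by
    rw [hD, Matrix.diagonal_mul_diagonal]
    congr 1
    funext j
    by_cases h : j ∈ S <;> simp [h]
  have hDH : Dᴴ = D := by
    rw [hD, Matrix.diagonal_conjTranspose]
    congr 1
    funext j
    by_cases h : j ∈ S <;> simp [h]
  have hP : mix A S = A * D + (1 - D) := mix_eq A S
  have hQ : mix A Sᶜ = A * (1 - D) + D := mix_compl_eq A S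
  set P := mix A S with hPd
  set Q := mix A Sᶜ with hQd
  have hdet : IsUnit P.det := by
    rw [hPd, det_mix]
    exact isUnit_iff_ne_zero.2 hS
  have hPA : P * (P⁻¹ * Q) = Q := by
    rw [← Matrix.mul_assoc, Matrix.mul_nonsing_inv _ hdet, Matrix.one_mul]
  refine ⟨P⁻¹ * Q, ?_, ?_⟩
  · have hPH : Pᴴ = -(D * A) + (1 - D) := by
      rw [hP, Matrix.conjTranspose_add, Matrix.conjTranspose_mul, Matrix.conjTranspose_sub,
        Matrix.conjTranspose_one, hDH, hA, Matrix.mul_neg]
    have hQH : Qᴴ = -((1 - D) * A) + D := by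
      rw [hQ, Matrix.conjTranspose_add, Matrix.conjTranspose_mul, Matrix.conjTranspose_sub,
        Matrix.conjTranspose_one, hDH, hA, Matrix.mul_neg]
    have key : P * Qᴴ = -(Q * Pᴴ) := by
      rw [hPH, hQH, hP, hQ]
      have e1 : D * (1 - D) = 0 := by rw [Matrix.mul_sub, Matrix.mul_one, hDD, sub_self]
      have e2 : (1 - D) * D = 0 := by rw [Matrix.sub_mul, Matrix.one_mul, hDD, sub_self]
      have e3 : (1 - D) * (1 - D) = 1 - D := by
        rw [Matrix.mul_sub, Matrix.mul_one, e2, sub_zero]
      have t1 : (A * D + (1 - D)) * (-((1 - D) * A) + D) = A * D - (1 - D) * A := by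
        rw [Matrix.add_mul, Matrix.mul_add, Matrix.mul_add, Matrix.mul_neg, Matrix.mul_neg, e2,
          Matrix.mul_assoc A D D, hDD, ← Matrix.mul_assoc (1 - D) (1 - D) A, e3,
          Matrix.mul_assoc A D, ← Matrix.mul_assoc D (1 - D) A, e1]
        simp only [Matrix.zero_mul, Matrix.mul_zero]
        abel
      have t2 : (A * (1 - D) + D) * (-(D * A) + (1 - D)) = A * (1 - D) - D * A := by
        rw [Matrix.add_mul, Matrix.mul_add, Matrix.mul_add, Matrix.mul_neg, Matrix.mul_neg, e1,
          Matrix.mul_assoc A (1 - D) (1 - D), e3, ← Matrix.mul_assoc D D A, hDD,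
          Matrix.mul_assoc A (1 - D), ← Matrix.mul_assoc (1 - D) D A, e2]
        simp only [Matrix.zero_mul, Matrix.mul_zero]
        abel
      rw [t1, t2]
      simp only [Matrix.mul_sub, Matrix.sub_mul, Matrix.mul_one, Matrix.one_mul]
      abel
    have hPHu : IsUnit (Pᴴ).det := by
      rw [Matrix.det_conjTranspose]
      exact hdet.star
    calc (P⁻¹ * Q)ᴴ = Qᴴ * (Pᴴ)⁻¹ := by
            rw [Matrix.conjTranspose_mul, Matrix.conjTranspose_nonsing_inv]
      _ = P⁻¹ * (P * Qᴴ) * (Pᴴ)⁻¹ := by
            rw [← Matrix.mul_assoc, Matrix.nonsing_inv_mul _ hdet, Matrix.one_mul]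
      _ = -(P⁻¹ * Q) := by
            rw [key, Matrix.mul_neg, Matrix.neg_mul, ← Matrix.mul_assoc, Matrix.mul_assoc,
              Matrix.mul_nonsing_inv _ hPHu, Matrix.mul_one]
  · intro T
    rw [← det_mix A S, ← det_mix (P⁻¹ * Q) T, ← det_mix A (symmDiff S T), ← Matrix.det_mul,
      ← mul_mix A (P⁻¹ * Q) S T hPA]

end pivot

end Pool.Agent.Q244.DM
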