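import Pool.Agent.Q244.DM1

/-! The exchange property for principal minors of skew-Hermitian matrices over a valued field. -/

set_option autoImplicit false

open Matrix
open scoped NNReal

namespace Pool.Agent.Q244.DM

section

variable {K : Type} [Field K] {ι : Type} [Fintype ι] [DecidableEq ι]

theorem pm_empty (A : Matrix ι ι K) : pm A ∅ = 1 := by
  unfold pm
  exact Matrix.det_isEmpty

theorem pm_singleton (A : Matrix ι ι K) (i : ι) : pm A {i} = A i i := by
  have hi : i ∈ ({i} : Finset ι) := Finset.mem_singleton_self i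
  let f : Fin 1 → {x // x ∈ ({i} : Finset ι)} := fun _ => ⟨i, hi⟩
  have hf : Function.Bijective f := by
    constructor
    · intro a b _
      exact Subsingleton.elim a b
    · rintro ⟨x, hx⟩
      exact ⟨0, Subtype.ext (Finset.mem_singleton.1 hx).symm⟩
  unfold pm
  rw [← Matrix.det_submatrix_equiv_self (Equiv.ofBijective f hf), Matrix.det_fin_one]
  rfl

theorem pm_pair (A : Matrix ι ι K) {i j : ι} (hij : i ≠ j) :
    pm A {i, j} = A i i * A j j - A i j * A j i := by
  have hi : i ∈ ({i, j} : Finset ι) := by simp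
  have hj : j ∈ ({i, j} : Finset ι) := by simp
  let f : Fin 2 → {x // x ∈ ({i, j} : Finset ι)} := ![⟨i, hi⟩, ⟨j, hj⟩]
  have hf : Function.Bijective f := by
    constructor
    · intro a b hab
      fin_cases a <;> fin_cases b
      · rfl
      · exact absurd (congrArg Subtype.val hab) hij
      · exact absurd (congrArg Subtype.val hab) hij.symm
      · rfl
    · rintro ⟨x, hx⟩
      rcases Finset.mem_insert.1 hx with h | h
      · exact ⟨0, Subtype.ext h.symm⟩
      · exact ⟨1, Subtype.ext (Finset.mem_singleton.1 h).symm⟩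
  unfold pm
  rw [← Matrix.det_submatrix_equiv_self (Equiv.ofBijective f hf), Matrix.det_fin_two]
  rfl

/-- The weighted value of a principal minor. -/
noncomputable def gv (v : Valuation K ℝ≥0) (A : Matrix ι ι K) (c : ι → ℝ≥0) (S : Finset ι) : ℝ≥0 :=
  v (pm A S) * ∏ i ∈ S, c i

theorem base_case (v : Valuation K ℝ≥0) (A : Matrix ι ι K) (hA : ∀ i j, v (A i j) = v (A j i))
    (c : ι → ℝ≥0) (hc : ∀ i, 0 < c i) (T : Finset ι) (hT : 3 ≤ T.card)
    (h : ∀ R, R ≠ ∅ → R ≠ T → gv v A c R < 1) : gv v A c T < 1 := by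
  have hs : ∀ i, gv v A c {i} < 1 := by
    intro i
    apply h
    · simp
    · intro hi
      rw [← hi] at hT
      simp at hT
  have hp : ∀ i j, i ≠ j → gv v A c {i, j} < 1 := by
    intro i j hij
    apply h
    · simp
    · intro hi
      rw [← hi] at hT
      have := Finset.card_le_two (a := i) (b := j)
      omega
  have h1 : ∀ i, v (A i i) * c i < 1 := by
    intro i
    have := hs i
    simpa [gv, pm_singleton] using this
  have h2 : ∀ i j, v (A i j) * v (A i j) * (c i * c j) < 1 := by
    intro i j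
    by_cases hij : i = j
    · subst hij
      have := h1 i
      calc v (A i i) * v (A i i) * (c i * c i) = (v (A i i) * c i) * (v (A i i) * c i) := by ring
        _ < 1 := mul_lt_one_of_nonneg_of_lt_one_left (by positivity) this this.le
    · have h3 := hp i j hij
      unfold gv at h3
      rw [pm_pair A hij, Finset.prod_pair hij] at h3
      have h4 : A i j * A j i = A i i * A j j - (A i i * A j j - A i j * A j i) := by ring
      have h5 : v (A i j) * v (A i j) ≤
          max (v (A i i * A j j)) (v (A i i * A j j - A i j * A j i)) := by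
        calc v (A i j) * v (A i j) = v (A i j * A j i) := by rw [map_mul, ← hA i j]
          _ = v (A i i * A j j - (A i i * A j j - A i j * A j i)) := by rw [← h4]
          _ ≤ _ := v.map_sub _ _
      rcases le_max_iff.1 h5 with h6 | h6
      · calc v (A i j) * v (A i j) * (c i * c j) ≤ v (A i i * A j j) * (c i * c j) := by gcongr
          _ = (v (A i i) * c i) * (v (A j j) * c j) := by rw [map_mul]; ring
          _ < 1 := mul_lt_one_of_nonneg_of_lt_one_left (by positivity) (h1 i) (h1 j).le
      · calc v (A i j) * v (A i j) * (c i * c j) ≤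
            v (A i i * A j j - A i j * A j i) * (c i * c j) := by gcongr
          _ < 1 := h3
  have h3 : ∀ i j, v (A i j) * (NNReal.sqrt (c i) * NNReal.sqrt (c j)) < 1 := by
    intro i j
    by_contra hcon
    rw [not_lt] at hcon
    have h4 := h2 i j
    have h5 : 1 ≤ v (A i j) * v (A i j) * (c i * c j) := by
      calc (1 : ℝ≥0) = 1 * 1 := by ring
        _ ≤ (v (A i j) * (NNReal.sqrt (c i) * NNReal.sqrt (c j))) *
            (v (A i j) * (NNReal.sqrt (c i) * NNReal.sqrt (c j))) := mul_le_mul' hcon hcon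
        _ = v (A i j) * v (A i j) * ((NNReal.sqrt (c i) * NNReal.sqrt (c i)) *
            (NNReal.sqrt (c j) * NNReal.sqrt (c j))) := by ring
        _ = v (A i j) * v (A i j) * (c i * c j) := by
            rw [NNReal.mul_self_sqrt, NNReal.mul_self_sqrt]
    exact absurd h4 (not_lt.2 h5)
  unfold gv pm
  have hprod : (∏ i ∈ T, c i) ≠ 0 := Finset.prod_ne_zero_iff.2 fun i _ => (hc i).ne'
  have hprod' : 0 < ∏ i ∈ T, c i := pos_iff_ne_zero.2 hprod
  have hTne : T.Nonempty := by
    rw [← Finset.card_pos]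
    omega
  have hlt : v (A.submatrix (Subtype.val : {i // i ∈ T} → ι) Subtype.val).det <
      (∏ i ∈ T, c i)⁻¹ := by
    rw [Matrix.det_apply]
    apply v.map_sum_lt (inv_ne_zero hprod)
    intro τ _
    have hsign : v ((Equiv.Perm.sign τ : ℤˣ) •
        ∏ i, A.submatrix (Subtype.val : {i // i ∈ T} → ι) Subtype.val (τ i) i) =
        ∏ i : {i // i ∈ T}, v (A (τ i) i) := by
      rcases Int.units_eq_one_or (Equiv.Perm.sign τ) with h' | h'
      · rw [h', one_smul, map_prod]
        rfl
      · rw [h']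
        simp only [Units.smul_def, Units.val_neg, Units.val_one, neg_smul, one_smul]
        rw [v.map_neg, map_prod]
        rfl
    rw [hsign]
    have key : (∏ i : {i // i ∈ T}, v (A (τ i) i)) * ∏ i ∈ T, c i < 1 := by
      have e1 : ∏ i ∈ T, c i = ∏ i : {i // i ∈ T},
          (NNReal.sqrt (c (τ i)) * NNReal.sqrt (c i)) := by
        rw [Finset.prod_mul_distrib, Equiv.prod_comp τ (fun i : {i // i ∈ T} => NNReal.sqrt (c i)),
          ← Finset.prod_mul_distrib, ← Finset.prod_coe_sort]
        apply Finset.prod_congr rfl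
        intro i _
        rw [NNReal.mul_self_sqrt]
      rw [e1, ← Finset.prod_mul_distrib]
      obtain ⟨i0, hi0⟩ := hTne
      rw [← Finset.mul_prod_erase Finset.univ _ (Finset.mem_univ (⟨i0, hi0⟩ : {i // i ∈ T}))]
      apply mul_lt_one_of_nonneg_of_lt_one_left (by positivity)
      · exact h3 _ _
      · apply Finset.prod_le_one (fun _ _ => by positivity)
        intro i _
        exact (h3 _ _).le
    calc (∏ i : {i // i ∈ T}, v (A (τ i) i))
        = ((∏ i : {i // i ∈ T}, v (A (τ i) i)) * ∏ i ∈ T, c i) * (∏ i ∈ T, c i)⁻¹ := by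
          rw [mul_assoc, mul_inv_cancel₀ hprod, mul_one]
      _ < 1 * (∏ i ∈ T, c i)⁻¹ := mul_lt_mul_of_pos_right key (inv_pos.2 hprod')
      _ = (∏ i ∈ T, c i)⁻¹ := one_mul _
  calc _ < (∏ i ∈ T, c i)⁻¹ * ∏ i ∈ T, c i := mul_lt_mul_of_pos_right hlt hprod'
    _ = 1 := inv_mul_cancel₀ hprod

end

section

variable {K : Type} [Field K] [StarRing K] {ι : Type} [Fintype ι] [DecidableEq ι]

omit [Fintype ι] in
theorem prod_symmDiff (c : ι → ℝ≥0) (hc : ∀ i, 0 < c i) (S R : Finset ι) :
    (∏ i ∈ S, c i) * ∏ i ∈ R, (if i ∈ S then (c i)⁻¹ else c i) = ∏ i ∈ symmDiff S R, c i := by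
  have h1 : ∏ i ∈ R, (if i ∈ S then (c i)⁻¹ else c i) =
      (∏ i ∈ R ∩ S, (c i)⁻¹) * ∏ i ∈ R \ S, c i := by
    rw [Finset.prod_ite]
    have a1 : R.filter (fun i => i ∈ S) = R ∩ S := by ext i; simp
    have a2 : R.filter (fun i => i ∉ S) = R \ S := by ext i; simp
    rw [a1, a2]
  have h2 : ∏ i ∈ S, c i = (∏ i ∈ R ∩ S, c i) * ∏ i ∈ S \ R, c i := by
    rw [← Finset.prod_union]
    · congr 1
      ext i; simp only [Finset.mem_union, Finset.mem_inter, Finset.mem_sdiff]; tauto
    · rw [Finset.disjoint_left]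
      intro i hi hi'
      simp only [Finset.mem_inter, Finset.mem_sdiff] at hi hi'
      exact hi'.2 hi.1
  have h3 : ∏ i ∈ symmDiff S R, c i = (∏ i ∈ S \ R, c i) * ∏ i ∈ R \ S, c i := by
    rw [← Finset.prod_union]
    · rfl
    · rw [Finset.disjoint_left]
      intro i hi hi'
      simp only [Finset.mem_sdiff] at hi hi'
      exact hi'.2 hi.1
  have h4 : (∏ i ∈ R ∩ S, c i) * ∏ i ∈ R ∩ S, (c i)⁻¹ = 1 := by
    rw [← Finset.prod_mul_distrib]
    apply Finset.prod_eq_one
    intro i _
    exact mul_inv_cancel₀ (hc i).ne'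
  rw [h1, h2, h3]
  calc (∏ i ∈ R ∩ S, c i) * (∏ i ∈ S \ R, c i) * ((∏ i ∈ R ∩ S, (c i)⁻¹) * ∏ i ∈ R \ S, c i)
      = ((∏ i ∈ R ∩ S, c i) * ∏ i ∈ R ∩ S, (c i)⁻¹) *
        ((∏ i ∈ S \ R, c i) * ∏ i ∈ R \ S, c i) := by ring
    _ = _ := by rw [h4, one_mul]

/-- If a weighted principal minor function of a skew-Hermitian matrix has exactly two maximisers,
they differ in at most two elements. -/
theorem exchange (v : Valuation K ℝ≥0) (hv : ∀ a, v (star a) = v a) (A : Matrix ι ι K)
    (hA : Aᴴ = -A) (c : ι → ℝ≥0) (hc : ∀ i, 0 < c i) (S T : Finset ι)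
    (hST : gv v A c S = gv v A c T)
    (h : ∀ R, R ≠ S → R ≠ T → gv v A c R < gv v A c S) : (symmDiff S T).card ≤ 2 := by
  by_contra hcard
  rw [not_le] at hcard
  -- the maximum is positive
  have hpos : 0 < gv v A c S := by
    obtain ⟨i, hi⟩ : (symmDiff S T).Nonempty := by
      rw [← Finset.card_pos]; omega
    have hne1 : symmDiff S {i} ≠ S := by
      intro h'
      have : ({i} : Finset ι) = ∅ := by
        have := congrArg (symmDiff S) h'
        rwa [symmDiff_symmDiff_cancel_left, symmDiff_self] at this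
      simp at this
    have hne2 : symmDiff S {i} ≠ T := by
      intro h'
      rw [← h', symmDiff_symmDiff_cancel_left] at hcard
      simp at hcard
    exact lt_of_le_of_lt (by positivity) (h _ hne1 hne2)
  have hS : pm A S ≠ 0 := by
    intro h0
    unfold gv at hpos
    rw [h0, map_zero, zero_mul] at hpos
    exact lt_irrefl _ hpos
  obtain ⟨A', hA', hpm⟩ := exists_pivot A hA S hS
  have hA's : ∀ i j, v (A' i j) = v (A' j i) := by
    intro i j
    have h1 : (A'ᴴ) i j = (-A') i j := by rw [hA']
    rw [Matrix.conjTranspose_apply, Matrix.neg_apply] at h1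
    rw [← v.map_neg (A' i j), ← h1, hv]
  set c' : ι → ℝ≥0 := fun i => if i ∈ S then (c i)⁻¹ else c i with hc'
  have hc'pos : ∀ i, 0 < c' i := by
    intro i
    simp only [hc']
    split_ifs
    · exact inv_pos.2 (hc i)
    · exact hc i
  have hg : ∀ R, gv v A c S * gv v A' c' R = gv v A c (symmDiff S R) := by
    intro R
    unfold gv
    rw [← hpm R, ← prod_symmDiff c hc S R, map_mul]
    ring
  have hlt := base_case v A' hA's c' hc'pos (symmDiff S T) hcard (by
    intro R hR1 hR2
    have h1 : symmDiff S R ≠ S := by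
      intro h'
      apply hR1
      have := congrArg (symmDiff S) h'
      rwa [symmDiff_symmDiff_cancel_left, symmDiff_self] at this
    have h2 : symmDiff S R ≠ T := by
      intro h'
      apply hR2
      rw [← h', symmDiff_symmDiff_cancel_left]
    have h3 := h _ h1 h2
    rw [← hg R] at h3
    by_contra hcon
    rw [not_lt] at hcon
    have : gv v A c S * 1 ≤ gv v A c S * gv v A' c' R := by gcongr
    rw [mul_one] at this
    exact absurd h3 (not_lt.2 this))
  have h4 := hg (symmDiff S T)
  rw [symmDiff_symmDiff_cancel_left, ← hST] at h4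
  have h5 : gv v A c S * gv v A' c' (symmDiff S T) < gv v A c S * 1 :=
    mul_lt_mul_of_pos_left hlt hpos
  rw [h4, mul_one] at h5
  exact lt_irrefl _ h5

end

end Pool.Agent.Q244.DM
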