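import Pool.Agent.Q244.DM2

/-! Extension of a valued field with involution by a fixed element with prescribed distances. -/

set_option autoImplicit false

open Matrix Polynomial
open scoped NNReal

namespace Pool.Agent.Q244.DM

section

variable {K : Type} [Field K]

/-- The absolute value of a valuation with values in the nonnegative reals. -/
noncomputable def absv (v : Valuation K ℝ≥0) : AbsoluteValue K ℝ where
  toFun a := (v a : ℝ)
  map_mul' a b := by simp
  nonneg' a := by positivity
  eq_zero' a := by simp
  add_le' a b := by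
    have h := v.map_add a b
    have h2 : max (v a) (v b) ≤ v a + v b := max_le (by simp) (by simp)
    exact_mod_cast h.trans h2

theorem absv_apply (v : Valuation K ℝ≥0) (a : K) : absv v a = (v a : ℝ) := rfl

theorem absv_na (v : Valuation K ℝ≥0) : IsNonarchimedean (absv v) := by
  intro a b
  have h := v.map_add a b
  rw [absv_apply, absv_apply, absv_apply]
  exact_mod_cast h

/-- The Gauss valuation. -/
noncomputable def gaussV (v : Valuation K ℝ≥0) (c : ℝ≥0) (hc : 0 < c) : Valuation K[X] ℝ≥0 where
  toFun p := ⟨p.gaussNorm (absv v) (c : ℝ), p.gaussNorm_nonneg _ (NNReal.coe_nonneg c)⟩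
  map_zero' := by
    apply NNReal.eq
    show (0 : K[X]).gaussNorm (absv v) (c : ℝ) = 0
    simp
  map_one' := by
    apply NNReal.eq
    show (1 : K[X]).gaussNorm (absv v) (c : ℝ) = 1
    rw [← C_1, gaussNorm_C, map_one]
  map_mul' p q := by
    apply NNReal.eq
    exact gaussNorm_mul (absv_na v) (by exact_mod_cast hc) p q
  map_add_le_max' p q := by
    rcases le_max_iff.1 (isNonarchimedean_gaussNorm (absv v) (absv_na v)
      (NNReal.coe_nonneg c) p q) with h | h
    · exact le_max_of_le_left h
    · exact le_max_of_le_right h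

theorem gaussV_coe (v : Valuation K ℝ≥0) (c : ℝ≥0) (hc : 0 < c) (p : K[X]) :
    (gaussV v c hc p : ℝ) = p.gaussNorm (absv v) (c : ℝ) := rfl

theorem gaussV_ne_zero (v : Valuation K ℝ≥0) (c : ℝ≥0) (hc : 0 < c) (p : K[X]) (hp : p ≠ 0) :
    gaussV v c hc p ≠ 0 := by
  intro h
  have h2 : p.gaussNorm (absv v) (c : ℝ) = 0 := by
    rw [← gaussV_coe v c hc, h]; rfl
  rw [gaussNorm_eq_zero_iff (absv v) p (fun x hx => (absv v).eq_zero.1 hx)
    (by exact_mod_cast hc)] at h2
  exact hp h2

theorem gaussV_map (v : Valuation K ℝ≥0) (c : ℝ≥0) (hc : 0 < c) (σ : K →+* K)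
    (hσ : ∀ a, v (σ a) = v a) (p : K[X]) : gaussV v c hc (p.map σ) = gaussV v c hc p := by
  have hc0 : (0 : ℝ) ≤ c := NNReal.coe_nonneg c
  ext
  rw [gaussV_coe, gaussV_coe]
  apply le_antisymm
  · obtain ⟨i, hi⟩ := exists_eq_gaussNorm (absv v) (c : ℝ) (p.map σ)
    rw [hi, coeff_map, absv_apply, hσ, ← absv_apply]
    exact p.le_gaussNorm (absv v) hc0 i
  · obtain ⟨i, hi⟩ := exists_eq_gaussNorm (absv v) (c : ℝ) p
    rw [hi, absv_apply, ← hσ, ← absv_apply, ← coeff_map]
    exact (p.map σ).le_gaussNorm (absv v) hc0 i

theorem gaussV_X_add_C (v : Valuation K ℝ≥0) (c : ℝ≥0) (hc : 0 < c) (a : K) :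
    gaussV v c hc (X + C a) = max c (v a) := by
  have hc0 : (0 : ℝ) ≤ c := NNReal.coe_nonneg c
  ext
  rw [gaussV_coe, NNReal.coe_max]
  apply le_antisymm
  · obtain ⟨i, hi⟩ := exists_eq_gaussNorm (absv v) (c : ℝ) (X + C a)
    rw [hi, absv_apply]
    rcases i with _ | _ | i
    · simp
    · simp
    · simp [coeff_X]
  · apply max_le
    · have := (X + C a).le_gaussNorm (absv v) hc0 1
      simpa [absv_apply] using this
    · have := (X + C a).le_gaussNorm (absv v) hc0 0
      simpa [absv_apply] using this

theorem gaussV_C (v : Valuation K ℝ≥0) (c : ℝ≥0) (hc : 0 < c) (a : K) :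
    gaussV v c hc (C a) = v a := by
  ext
  rw [gaussV_coe, gaussNorm_C, absv_apply]

end

section

variable {K : Type} [Field K] [StarRing K]

/-- The involution of the fraction field of `K[X]` which fixes `X`. -/
noncomputable def starL : FractionRing K[X] ≃+* FractionRing K[X] :=
  IsFractionRing.ringEquivOfRingEquiv (Polynomial.mapEquiv (starRingAut : K ≃+* K))

theorem starL_algebraMap (p : K[X]) :
    starL (algebraMap K[X] (FractionRing K[X]) p) =
      algebraMap K[X] (FractionRing K[X]) (p.map (starRingEnd K)) := by
  unfold starL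
  rw [IsFractionRing.ringEquivOfRingEquiv_algebraMap]
  rfl

theorem starL_starL (x : FractionRing K[X]) : starL (starL x) = x := by
  have h : (starL (K := K)).toRingHom.comp (starL (K := K)).toRingHom =
      RingHom.id (FractionRing K[X]) := by
    apply IsLocalization.ringHom_ext (nonZeroDivisors K[X])
    ext a
    · show starL (starL (algebraMap K[X] (FractionRing K[X]) (C a))) =
        algebraMap K[X] (FractionRing K[X]) (C a)
      rw [starL_algebraMap, starL_algebraMap]
      simp
    · show starL (starL (algebraMap K[X] (FractionRing K[X]) X)) =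
        algebraMap K[X] (FractionRing K[X]) X
      rw [starL_algebraMap, starL_algebraMap]
      simp
  exact congrArg (fun f : FractionRing K[X] →+* FractionRing K[X] => f x) h

/-- The star ring structure on the fraction field of `K[X]`. -/
@[reducible] noncomputable def starRingL : StarRing (FractionRing K[X]) where
  star := starL
  star_involutive := starL_starL
  star_mul x y := by
    show starL (x * y) = starL y * starL x
    rw [map_mul, mul_comm]
  star_add x y := map_add starL x y

theorem exists_ext (v : Valuation K ℝ≥0) (hv : ∀ a, v (star a) = v a) (c : ℝ≥0) (hc : 0 < c) :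
    ∃ (L : Type) (_ : Field L) (_ : StarRing L) (w : Valuation L ℝ≥0) (φ : K →+* L) (s : L),
      (∀ a, w (star a) = w a) ∧ (∀ a, w (φ a) = v a) ∧ (∀ a, star (φ a) = φ (star a)) ∧
      star s = s ∧ ∀ a, w (s + φ a) = max c (v a) := by
  have hS : nonZeroDivisors K[X] ≤ (gaussV v c hc).supp.primeCompl := by
    intro p hp hp'
    rw [SetLike.mem_coe, Valuation.mem_supp_iff] at hp'
    exact gaussV_ne_zero v c hc p (nonZeroDivisors.ne_zero hp) hp'
  set w := (gaussV v c hc).extendToLocalization hS (FractionRing K[X]) with hw
  refine ⟨FractionRing K[X], inferInstance, starRingL, w,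
    (algebraMap K[X] (FractionRing K[X])).comp C, algebraMap K[X] (FractionRing K[X]) X,
    ?_, ?_, ?_, ?_, ?_⟩
  · intro x
    show w (starL x) = w x
    obtain ⟨p, q, hq, rfl⟩ := IsFractionRing.div_surjective (A := K[X]) x
    rw [map_div₀, map_div₀, map_div₀, starL_algebraMap, starL_algebraMap, hw,
      Valuation.extendToLocalization_apply_map_apply,
      Valuation.extendToLocalization_apply_map_apply,
      Valuation.extendToLocalization_apply_map_apply,
      Valuation.extendToLocalization_apply_map_apply,
      gaussV_map v c hc (starRingEnd K) hv, gaussV_map v c hc (starRingEnd K) hv]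
  · intro a
    rw [RingHom.comp_apply, hw, Valuation.extendToLocalization_apply_map_apply, gaussV_C]
  · intro a
    show starL (algebraMap K[X] (FractionRing K[X]) (C a)) =
      algebraMap K[X] (FractionRing K[X]) (C (star a))
    rw [starL_algebraMap, map_C, starRingEnd_apply]
  · show starL (algebraMap K[X] (FractionRing K[X]) X) = _
    rw [starL_algebraMap]
    simp
  · intro a
    rw [RingHom.comp_apply, ← map_add, hw, Valuation.extendToLocalization_apply_map_apply,
      gaussV_X_add_C]

end

end Pool.Agent.Q244.DM
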