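import Pool.Agent.Q244.DM3

/-! Exchange property for skew-Hermitian plus scalar times skew-Hermitian of rank one. -/

set_option autoImplicit false

open Matrix Polynomial
open scoped NNReal

namespace Pool.Agent.Q244.DM

section affine

variable {R : Type} [CommRing R] {ι : Type} [Fintype ι] [DecidableEq ι]

theorem det_affine (B : Matrix ι ι R) (a b : ι → R) :
    ∃ d : R, ∀ κ : R, (B + κ • vecMulVec a b).det = B.det + κ * d := by
  classical
  set M : Matrix (ι ⊕ Unit) (ι ⊕ Unit) R :=
    fromBlocks B (Matrix.of fun i _ => a i) (Matrix.of fun _ _ => 0) 1 with hM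
  have key : ∀ κ : R, (B + κ • vecMulVec a b).det =
      (M.updateRow (Sum.inr ()) (κ • (Sum.elim (-b) (fun _ => (0 : R))) +
        Sum.elim (fun _ => 0) (fun _ => 1))).det := by
    intro κ
    have h1 : (M.updateRow (Sum.inr ()) (κ • (Sum.elim (-b) (fun _ => (0 : R))) +
        Sum.elim (fun _ => 0) (fun _ => 1))) =
        fromBlocks B (Matrix.of fun i _ => a i) (Matrix.of fun _ j => - κ * b j) 1 := by
      ext i j
      rcases i with i | i
      · rw [updateRow_ne (by simp)]
        rcases j with j | j <;> simp [hM]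
      · have : i = () := rfl
        subst this
        rw [updateRow_self]
        rcases j with j | j
        · simp
        · simp
    rw [h1, det_fromBlocks_one₂₂]
    congr 1
    ext i j
    simp [Matrix.mul_apply, vecMulVec_apply]
    ring
  refine ⟨(M.updateRow (Sum.inr ()) (Sum.elim (-b) (fun _ => (0 : R)))).det, ?_⟩
  intro κ
  have h0 := key 0
  rw [zero_smul, add_zero, zero_smul, zero_add] at h0
  rw [key κ, det_updateRow_add, det_updateRow_smul, h0]
  ring

theorem pm_affine (B : Matrix ι ι R) (a b : ι → R) (S : Finset ι) (κ : R) :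
    pm (B + κ • vecMulVec a b) S = pm B S + κ * (pm (B + vecMulVec a b) S - pm B S) := by
  obtain ⟨d, hd⟩ := det_affine (B.submatrix (Subtype.val : {i // i ∈ S} → ι) Subtype.val)
    (fun i : {i // i ∈ S} => a i) (fun i : {i // i ∈ S} => b i)
  have h : ∀ κ : R, pm (B + κ • vecMulVec a b) S = pm B S + κ * d := by
    intro κ
    have := hd κ
    unfold pm
    rw [← this]
    congr 1
  have h1 := h 1
  rw [one_smul, one_mul] at h1
  rw [h κ, h1]
  ring

theorem pm_neg (B : Matrix ι ι R) (S : Finset ι) : pm (-B) S = (-1) ^ S.card * pm B S := by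
  unfold pm
  have : (-B).submatrix (Subtype.val : {i // i ∈ S} → ι) (Subtype.val : {i // i ∈ S} → ι) =
      -(B.submatrix (Subtype.val : {i // i ∈ S} → ι) (Subtype.val : {i // i ∈ S} → ι)) := rfl
  rw [this, det_neg, Fintype.card_coe]

theorem pm_map {R' : Type} [CommRing R'] (f : R →+* R') (B : Matrix ι ι R) (S : Finset ι) :
    pm (B.map f) S = f (pm B S) := by
  unfold pm
  rw [RingHom.map_det]
  rfl

theorem pm_conjTranspose [StarRing R] (B : Matrix ι ι R) (S : Finset ι) :
    pm Bᴴ S = star (pm B S) := by
  unfold pm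
  rw [← det_conjTranspose]
  rfl

end affine

section rank

variable {K : Type} [Field K] {ι : Type} [Fintype ι] [DecidableEq ι]

theorem exists_vecMulVec (C : Matrix ι ι K) (hC : C.rank ≤ 1) :
    ∃ a b : ι → K, C = vecMulVec a b := by
  unfold Matrix.rank at hC
  rw [finrank_le_one_iff] at hC
  obtain ⟨w, hw⟩ := hC
  have h : ∀ j, ∃ c : K, c • (w : ι → K) = C.mulVec (Pi.single j 1) := by
    intro j
    obtain ⟨c, hc⟩ := hw ⟨C.mulVec (Pi.single j 1), ⟨Pi.single j 1, rfl⟩⟩
    exact ⟨c, by simpa using congrArg Subtype.val hc⟩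
  choose b hb using h
  refine ⟨w, b, ?_⟩
  ext i j
  have := congrFun (hb j) i
  rw [Matrix.mulVec_single_one] at this
  rw [vecMulVec_apply, mul_comm]
  exact this.symm

end rank

section main

variable {K : Type} [Field K] [StarRing K] {ι : Type} [Fintype ι] [DecidableEq ι]

theorem exchange_affine (v : Valuation K ℝ≥0) (hv : ∀ a, v (star a) = v a) (B C : Matrix ι ι K)
    (hB : Bᴴ = -B) (hC : Cᴴ = -C) (hCr : C.rank ≤ 1) (θ : K) (c : ι → ℝ≥0) (hc : ∀ i, 0 < c i)
    (S T : Finset ι) (hST : gv v (B + θ • C) c S = gv v (B + θ • C) c T)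
    (h : ∀ R, R ≠ S → R ≠ T → gv v (B + θ • C) c R < gv v (B + θ • C) c S) :
    (symmDiff S T).card ≤ 2 := by
  classical
  obtain ⟨a, b, hab⟩ := exists_vecMulVec C hCr
  set y : Finset ι → K := fun R => pm (B + C) R - pm B R with hy
  have hpm : ∀ (κ : K) (R : Finset ι), pm (B + κ • C) R = pm B R + κ * y R := by
    intro κ R
    rw [hy, hab, pm_affine]
  -- transfer principle
  have transfer : ∀ (L : Type) (_ : Field L) (_ : StarRing L) (w : Valuation L ℝ≥0)
      (_ : ∀ a, w (star a) = w a) (A' : Matrix ι ι L) (_ : A'ᴴ = -A')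
      (_ : ∀ R, w (pm A' R) = v (pm (B + θ • C) R)), (symmDiff S T).card ≤ 2 := by
    intro L _ _ w hw A' hA' hwv
    have hg : ∀ R, gv w A' c R = gv v (B + θ • C) c R := by
      intro R
      unfold gv
      rw [hwv]
    apply exchange w hw A' hA' c hc S T
    · rw [hg, hg, hST]
    · intro R h1 h2
      rw [hg, hg]
      exact h R h1 h2
  have hstarB : ∀ R, star (pm B R) = (-1) ^ R.card * pm B R := by
    intro R
    rw [← pm_conjTranspose, hB, pm_neg]
  have hstarBC : ∀ R, star (pm (B + C) R) = (-1) ^ R.card * pm (B + C) R := by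
    intro R
    rw [← pm_conjTranspose, conjTranspose_add, hB, hC, ← neg_add, pm_neg]
  have hstary : ∀ R, star (y R) = (-1) ^ R.card * y R := by
    intro R
    simp only [hy, star_sub, hstarB, hstarBC]
    ring
  by_cases hall : ∀ R, y R = 0
  · apply transfer K inferInstance inferInstance v hv B hB
    intro R
    rw [hpm, hall, mul_zero, add_zero]
  rw [not_forall] at hall
  obtain ⟨R₁, hR₁⟩ := hall
  set r : Finset ι → K := fun R => pm B R / y R with hr
  have hstarr : ∀ R, star (r R) = r R := by
    intro R
    simp only [hr]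
    rw [star_div₀, hstarB, hstary]
    rcases Nat.even_or_odd R.card with he | ho
    · rw [he.neg_one_pow, one_mul, one_mul]
    · rw [ho.neg_one_pow, neg_one_mul, neg_one_mul, neg_div_neg_eq]
  obtain ⟨R₀, hR₀, hmin⟩ := Finset.exists_min_image (Finset.univ.filter fun R => y R ≠ 0)
    (fun R => v (θ + r R)) ⟨R₁, by simpa using hR₁⟩
  have hmin' : ∀ R, y R ≠ 0 → v (θ + r R₀) ≤ v (θ + r R) := by
    intro R hR
    exact hmin R (by simpa using hR)
  rcases eq_or_ne (v (θ + r R₀)) 0 with hm | hm
  · have hθ : θ = - r R₀ := by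
      rw [map_eq_zero] at hm
      exact eq_neg_of_add_eq_zero_left hm
    apply transfer K inferInstance inferInstance v hv (B + θ • C) _ (fun R => rfl)
    rw [conjTranspose_add, conjTranspose_smul, hB, hC, hθ, star_neg, hstarr]
    module
  · obtain ⟨L, iL, iS, w, φ, s, hw1, hw2, hw3, hw4, hw5⟩ :=
      exists_ext v hv (v (θ + r R₀)) (pos_iff_ne_zero.2 hm)
    have hmap : ∀ (M : Matrix ι ι K), Mᴴ = -M → (M.map φ)ᴴ = -(M.map φ) := by
      intro M hM
      ext i j
      rw [conjTranspose_apply, map_apply, hw3, Matrix.neg_apply, map_apply, ← map_neg]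
      congr 1
      have := congrFun (congrFun hM i) j
      rwa [conjTranspose_apply, Matrix.neg_apply] at this
    set κ : L := s - φ (r R₀) with hκ
    have hstarκ : star κ = κ := by
      rw [hκ, star_sub, hw4, hw3, hstarr]
    apply transfer L iL iS w hw1 (B.map φ + κ • C.map φ)
    · rw [conjTranspose_add, conjTranspose_smul, hmap B hB, hmap C hC, hstarκ]
      module
    · intro R
      have h1 : C.map φ = vecMulVec (fun i => φ (a i)) (fun i => φ (b i)) := by
        ext i j
        rw [hab, map_apply, vecMulVec_apply, vecMulVec_apply, map_mul]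
      have h2 : pm (B.map φ + κ • C.map φ) R = φ (pm B R) + κ * φ (y R) := by
        rw [h1, pm_affine, ← h1, pm_map]
        have : B.map φ + C.map φ = (B + C).map φ := by
          ext i j
          simp
        rw [this, pm_map, hy, map_sub]
      rw [h2, hpm]
      by_cases hyR : y R = 0
      · rw [hyR, map_zero, mul_zero, mul_zero, add_zero, add_zero, hw2]
      · have h3 : pm B R = r R * y R := by
          simp only [hr]
          rw [div_mul_cancel₀ _ hyR]
        have h4 : φ (pm B R) + κ * φ (y R) = (s + φ (r R - r R₀)) * φ (y R) := by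
          rw [h3, map_mul, map_sub φ (r R) (r R₀), hκ]
          ring
        have h5 : pm B R + θ * y R = (θ + r R) * y R := by
          rw [h3]
          ring
        rw [h4, h5, map_mul, map_mul, hw2, hw5]
        congr 1
        have hle := hmin' R hyR
        apply le_antisymm
        · apply max_le hle
          have : r R - r R₀ = (θ + r R) - (θ + r R₀) := by ring
          rw [this]
          refine (v.map_sub _ _).trans ?_
          exact max_le le_rfl hle
        · have : θ + r R = (θ + r R₀) + (r R - r R₀) := by ring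
          rw [this]
          exact v.map_add _ _

end main

end Pool.Agent.Q244.DM
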