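import Mathlib

/-! Valuated Delta-matroids: regular subdivisions of the cube. -/

set_option autoImplicit false

open Matrix

namespace Pool.Agent.Q244.DM

/-- The indicator vector `e_S`. -/
def indVec {n : ℕ} (S : Finset (Fin n)) : Fin n → ℝ := fun i => if i ∈ S then 1 else 0

/-- The lifted points `(e_S, p(S))`, for the sets `S` with `p(S) ≠ ∞`. -/
def liftPts {n : ℕ} (p : Finset (Fin n) → WithTop ℝ) : Set ((Fin n → ℝ) × ℝ) :=
  {z | ∃ S, z.1 = indVec S ∧ p S = (z.2 : WithTop ℝ)}

/-- The lower face, in direction `(w, 1)`, of the convex hull of the lifted points. -/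
def lowerFace {n : ℕ} (p : Finset (Fin n) → WithTop ℝ) (w : Fin n → ℝ) :
    Set ((Fin n → ℝ) × ℝ) :=
  {z | z ∈ convexHull ℝ (liftPts p) ∧
    ∀ z' ∈ convexHull ℝ (liftPts p), w ⬝ᵥ z.1 + z.2 ≤ w ⬝ᵥ z'.1 + z'.2}

/-- The cell of the regular subdivision induced by `p`: the projection of a lower face. -/
def cell {n : ℕ} (p : Finset (Fin n) → WithTop ℝ) (w : Fin n → ℝ) : Set (Fin n → ℝ) :=
  Prod.fst '' lowerFace p w

/-- The allowed directions `e_i`, `e_i + e_j` and `e_i - e_j` with `i ≠ j`. -/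
def AllowedDir {n : ℕ} (d : Fin n → ℝ) : Prop :=
  (∃ i, d = Pi.single i 1) ∨ ∃ i j, i ≠ j ∧
    (d = Pi.single i 1 + Pi.single j 1 ∨ d = Pi.single i 1 - Pi.single j 1)

/-- `p` is a valuated Delta-matroid: every edge (one-dimensional cell) of the regular
subdivision induced by `p` is parallel to some `e_i` or some `e_i ± e_j` with `i ≠ j`. -/
def IsValuatedDeltaMatroid {n : ℕ} (p : Finset (Fin n) → WithTop ℝ) : Prop :=
  ∀ w : Fin n → ℝ, Module.finrank ℝ (vectorSpan ℝ (cell p w)) = 1 →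
    ∃ d : Fin n → ℝ, AllowedDir d ∧ vectorSpan ℝ (cell p w) = Submodule.span ℝ {d}

theorem indVec_injective {n : ℕ} {S T : Finset (Fin n)} (h : indVec S = indVec T) : S = T := by
  ext i
  have := congrFun h i
  unfold indVec at this
  by_cases h1 : i ∈ S <;> by_cases h2 : i ∈ T <;> simp_all

theorem dot_indVec {n : ℕ} (w : Fin n → ℝ) (S : Finset (Fin n)) :
    w ⬝ᵥ indVec S = ∑ i ∈ S, w i := by
  simp [dotProduct, indVec]

/-- The weighted value. -/
noncomputable def wval {n : ℕ} (p : Finset (Fin n) → WithTop ℝ) (w : Fin n → ℝ) (S : Finset (Fin n)) :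
    WithTop ℝ := p S + ((∑ i ∈ S, w i : ℝ) : WithTop ℝ)

theorem convex_half {n : ℕ} (w : Fin n → ℝ) (m : ℝ) :
    Convex ℝ {z : (Fin n → ℝ) × ℝ | m ≤ w ⬝ᵥ z.1 + z.2} := by
  intro x hx y hy a b ha hb hab
  simp only [Set.mem_setOf_eq] at hx hy ⊢
  have : w ⬝ᵥ (a • x + b • y).1 + (a • x + b • y).2 =
      a * (w ⬝ᵥ x.1 + x.2) + b * (w ⬝ᵥ y.1 + y.2) := by
    simp [dotProduct_add, dotProduct_smul]
    ring
  rw [this]
  calc m = a * m + b * m := by rw [← add_mul, hab, one_mul]
    _ ≤ _ := by gcongr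

theorem convex_half_strict {n : ℕ} (w : Fin n → ℝ) (m : ℝ) :
    Convex ℝ {z : (Fin n → ℝ) × ℝ | m < w ⬝ᵥ z.1 + z.2} := by
  intro x hx y hy a b ha hb hab
  simp only [Set.mem_setOf_eq] at hx hy ⊢
  have : w ⬝ᵥ (a • x + b • y).1 + (a • x + b • y).2 =
      a * (w ⬝ᵥ x.1 + x.2) + b * (w ⬝ᵥ y.1 + y.2) := by
    simp [dotProduct_add, dotProduct_smul]
    ring
  rw [this]
  rcases eq_or_lt_of_le ha with h0 | h0
  · have hb1 : b = 1 := by rw [← h0] at hab; linarith
    rw [← h0, hb1]
    linarith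
  · calc m = a * m + b * m := by rw [← add_mul, hab, one_mul]
      _ < a * (w ⬝ᵥ x.1 + x.2) + b * m := by gcongr
      _ ≤ _ := by gcongr

/-- Combinatorial criterion for valuated Delta-matroids. -/
theorem isVDM_of_exchange {n : ℕ} (p : Finset (Fin n) → WithTop ℝ)
    (hex : ∀ (w : Fin n → ℝ) (S T : Finset (Fin n)), wval p w S = wval p w T →
      (∀ R, R ≠ S → R ≠ T → wval p w S < wval p w R) → (symmDiff S T).card ≤ 2) :
    IsValuatedDeltaMatroid p := by
  classical
  intro w hw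
  -- nonempty
  have hne : (cell p w).Nonempty := by
    rw [Set.nonempty_iff_ne_empty]
    intro h0
    rw [h0, vectorSpan_empty, finrank_bot] at hw
    exact absurd hw (by norm_num)
  obtain ⟨x, z, hz, hzx⟩ := hne
  have hne2 : (liftPts p).Nonempty := by
    rw [← convexHull_nonempty_iff (𝕜 := ℝ)]
    exact ⟨z, hz.1⟩
  obtain ⟨z₁, S₁, hS₁, hpS₁⟩ := hne2
  obtain ⟨S₀, hS₀, hmin⟩ := Finset.exists_min_image
    (Finset.univ : Finset (Finset (Fin n))) (wval p w) ⟨S₁, Finset.mem_univ _⟩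
  have hmin' : ∀ R, wval p w S₀ ≤ wval p w R := fun R => hmin R (Finset.mem_univ _)
  have hfin : wval p w S₀ ≠ ⊤ := by
    intro h0
    have h1 := hmin' S₁
    rw [h0, top_le_iff] at h1
    unfold wval at h1
    rw [hpS₁, ← WithTop.coe_add] at h1
    exact WithTop.coe_ne_top h1
  obtain ⟨m, hm⟩ := WithTop.ne_top_iff_exists.1 hfin
  -- every finite minimiser gives a point of the lower face
  have hval : ∀ (R : Finset (Fin n)) (t : ℝ), p R = (t : WithTop ℝ) →
      wval p w R = ((w ⬝ᵥ indVec R + t : ℝ) : WithTop ℝ) := by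
    intro R t ht
    unfold wval
    rw [ht, dot_indVec, ← WithTop.coe_add, add_comm]
  have hlift : liftPts p ⊆ {z | m ≤ w ⬝ᵥ z.1 + z.2} := by
    rintro z' ⟨R, hR1, hR2⟩
    have h1 := hmin' R
    rw [hval R z'.2 hR2, ← hm, ← hR1] at h1
    exact_mod_cast h1
  have hhull : convexHull ℝ (liftPts p) ⊆ {z | m ≤ w ⬝ᵥ z.1 + z.2} :=
    convexHull_min hlift (convex_half w m)
  have hmem : ∀ R, wval p w R = wval p w S₀ → indVec R ∈ cell p w := by
    intro R hR
    have hRt : p R ≠ ⊤ := by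
      intro h0
      unfold wval at hR hfin
      rw [h0, top_add] at hR
      exact hfin hR.symm
    obtain ⟨t, ht⟩ := WithTop.ne_top_iff_exists.1 hRt
    refine ⟨(indVec R, t), ⟨subset_convexHull ℝ _ ⟨R, rfl, ht.symm⟩, ?_⟩, rfl⟩
    intro z' hz'
    have h1 := hval R t ht.symm
    rw [hR, ← hm] at h1
    have h2 : m = w ⬝ᵥ indVec R + t := by exact_mod_cast h1
    have h3 := hhull hz'
    simp only [Set.mem_setOf_eq] at h3
    show w ⬝ᵥ indVec R + t ≤ _
    rw [← h2]
    exact h3
  -- there is a second minimiser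
  obtain ⟨T₀, hT₀, hTS⟩ : ∃ T, wval p w T = wval p w S₀ ∧ T ≠ S₀ := by
    by_contra hcon
    push Not at hcon
    have hpS : p S₀ ≠ ⊤ := by
      intro h0
      unfold wval at hfin
      rw [h0, top_add] at hfin
      exact hfin rfl
    obtain ⟨t, ht⟩ := WithTop.ne_top_iff_exists.1 hpS
    have h1 := hval S₀ t ht.symm
    rw [← hm] at h1
    have h2 : m = w ⬝ᵥ indVec S₀ + t := by exact_mod_cast h1
    have hsub : lowerFace p w ⊆ {(indVec S₀, t)} := by
      rintro y ⟨hy1, hy2⟩
      have hy3 : w ⬝ᵥ y.1 + y.2 ≤ m := by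
        rw [h2]
        exact hy2 (indVec S₀, t) (subset_convexHull ℝ _ ⟨S₀, rfl, ht.symm⟩)
      have hins : liftPts p ⊆ insert (indVec S₀, t) {z | m < w ⬝ᵥ z.1 + z.2} := by
        rintro z' ⟨R, hR1, hR2⟩
        rcases eq_or_ne R S₀ with h | h
        · left
          subst h
          rw [← ht] at hR2
          have : t = z'.2 := by exact_mod_cast hR2
          exact Prod.ext hR1 this.symm
        · right
          have h3 : wval p w S₀ < wval p w R :=
            lt_of_le_of_ne (hmin' R) (fun h' => h (hcon R h'.symm))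
          rw [hval R z'.2 hR2, ← hm, ← hR1] at h3
          exact_mod_cast h3
      have hy4 := convexHull_mono (𝕜 := ℝ) hins hy1
      by_cases hne3 : ({z : (Fin n → ℝ) × ℝ | m < w ⬝ᵥ z.1 + z.2}).Nonempty
      · rw [convexHull_insert hne3, mem_convexJoin] at hy4
        obtain ⟨a, ha, b, hb, hab⟩ := hy4
        rw [Set.mem_singleton_iff] at ha
        rw [(convex_half_strict w m).convexHull_eq] at hb
        obtain ⟨c, d, hc, hd, hcd, rfl⟩ := hab
        have h5 : w ⬝ᵥ (c • a + d • b).1 + (c • a + d • b).2 =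
            c * m + d * (w ⬝ᵥ b.1 + b.2) := by
          rw [ha, h2]
          simp [dotProduct_add, dotProduct_smul]
          ring
        rw [h5] at hy3
        simp only [Set.mem_setOf_eq] at hb
        have hd0 : d = 0 := by
          by_contra hne4
          have hdpos : 0 < d := lt_of_le_of_ne hd (Ne.symm hne4)
          have : c * m + d * m < c * m + d * (w ⬝ᵥ b.1 + b.2) := by gcongr
          rw [← add_mul, hcd, one_mul] at this
          linarith
        have hc1 : c = 1 := by rw [hd0] at hcd; linarith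
        rw [hd0, hc1, ha]
        simp
      · rw [Set.not_nonempty_iff_eq_empty] at hne3
        rw [hne3] at hy4
        simpa using hy4
    have hcs : (cell p w).Subsingleton := by
      rintro a ⟨a', ha', rfl⟩ b ⟨b', hb', rfl⟩
      rw [Set.mem_singleton_iff.1 (hsub ha'), Set.mem_singleton_iff.1 (hsub hb')]
    rw [vectorSpan_of_subsingleton ℝ hcs, finrank_bot] at hw
    exact absurd hw (by norm_num)
  -- direction vector
  set d₀ : Fin n → ℝ := indVec T₀ - indVec S₀ with hd₀
  have hd₀mem : d₀ ∈ vectorSpan ℝ (cell p w) :=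
    vsub_mem_vectorSpan ℝ (hmem T₀ hT₀) (hmem S₀ rfl)
  have hd₀ne : d₀ ≠ 0 := by
    intro h0
    exact hTS (indVec_injective (sub_eq_zero.1 h0))
  have hspan : vectorSpan ℝ (cell p w) = Submodule.span ℝ {d₀} := by
    symm
    apply Submodule.eq_of_le_of_finrank_eq
    · rw [Submodule.span_singleton_le_iff_mem]
      exact hd₀mem
    · rw [hw, finrank_span_singleton hd₀ne]
  have hcoord : ∀ (S T : Finset (Fin n)) (i : Fin n), (indVec T - indVec S) i =
      (if i ∈ T then 1 else 0) - (if i ∈ S then 1 else 0) := fun S T i => rfl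
  have hother : ∀ R, wval p w R = wval p w S₀ → R = S₀ ∨ R = T₀ := by
    intro R hR
    have h1 : indVec R - indVec S₀ ∈ vectorSpan ℝ (cell p w) :=
      vsub_mem_vectorSpan ℝ (hmem R hR) (hmem S₀ rfl)
    rw [hspan, Submodule.mem_span_singleton] at h1
    obtain ⟨c, hc⟩ := h1
    obtain ⟨i, hi⟩ : ∃ i, d₀ i ≠ 0 := by
      by_contra h
      push Not at h
      exact hd₀ne (funext h)
    have hc1 : c = 0 ∨ c = 1 := by
      have h2 := congrFun hc i
      rw [Pi.smul_apply, smul_eq_mul, hcoord] at h2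
      rw [hd₀, hcoord] at hi h2
      by_cases h3 : i ∈ S₀ <;> by_cases h4 : i ∈ T₀ <;> by_cases h5 : i ∈ R <;>
        simp [h3, h4, h5] at hi h2 ⊢ <;> simp [h2]
    rcases hc1 with rfl | rfl
    · left
      rw [zero_smul] at hc
      exact indVec_injective (sub_eq_zero.1 hc.symm)
    · right
      rw [one_smul, hd₀] at hc
      exact (indVec_injective (sub_left_inj.1 hc)).symm
  have hcard := hex w S₀ T₀ hT₀.symm (by
    intro R h1 h2
    refine lt_of_le_of_ne (hmin' R) (fun h' => ?_)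
    rcases hother R h'.symm with h | h
    · exact h1 h
    · exact h2 h)
  have hcard0 : (symmDiff S₀ T₀).card ≠ 0 := by
    rw [Finset.card_ne_zero]
    rw [Finset.nonempty_iff_ne_empty]
    intro h0
    exact hTS (symmDiff_eq_bot.1 h0).symm
  have hneg : ∀ d : Fin n → ℝ, Submodule.span ℝ {-d} = Submodule.span ℝ {d} := by
    intro d
    rw [← Set.neg_singleton, Submodule.span_neg]
  have hout : ∀ i, i ∉ symmDiff S₀ T₀ → d₀ i = 0 := by
    intro i hi
    rw [hd₀, hcoord]
    rw [Finset.mem_symmDiff] at hi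
    by_cases h3 : i ∈ S₀ <;> by_cases h4 : i ∈ T₀ <;> simp_all
  have hin : ∀ i, i ∈ symmDiff S₀ T₀ → d₀ i = 1 ∨ d₀ i = -1 := by
    intro i hi
    rw [hd₀, hcoord]
    rw [Finset.mem_symmDiff] at hi
    by_cases h3 : i ∈ S₀ <;> by_cases h4 : i ∈ T₀ <;> simp_all
  have hcases : (symmDiff S₀ T₀).card = 1 ∨ (symmDiff S₀ T₀).card = 2 := by omega
  rcases hcases with h1 | h2
  · obtain ⟨i, hi⟩ := Finset.card_eq_one.1 h1
    have hdi : d₀ = Pi.single i (d₀ i) := by
      ext k
      rcases eq_or_ne k i with rfl | hk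
      · simp
      · rw [Pi.single_eq_of_ne hk]
        apply hout
        rw [hi]
        simpa using hk
    refine ⟨Pi.single i 1, Or.inl ⟨i, rfl⟩, ?_⟩
    rw [hspan, hdi]
    rcases hin i (by rw [hi]; simp) with h | h
    · rw [h]
    · rw [h, Pi.single_neg, hneg]
  · obtain ⟨i, j, hij, hs⟩ := Finset.card_eq_two.1 h2
    have hdij : d₀ = Pi.single i (d₀ i) + Pi.single j (d₀ j) := by
      ext k
      rcases eq_or_ne k i with rfl | hk
      · simp [Pi.single_eq_of_ne hij]
      · rcases eq_or_ne k j with rfl | hk'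
        · simp [Pi.single_eq_of_ne hk]
        · rw [Pi.add_apply, Pi.single_eq_of_ne hk, Pi.single_eq_of_ne hk', add_zero]
          apply hout
          rw [hs]
          simp [hk, hk']
    rcases hin i (by rw [hs]; simp) with h | h <;> rcases hin j (by rw [hs]; simp) with h' | h'
    · refine ⟨Pi.single i 1 + Pi.single j 1, Or.inr ⟨i, j, hij, Or.inl rfl⟩, ?_⟩
      rw [hspan, hdij, h, h']
    · refine ⟨Pi.single i 1 - Pi.single j 1, Or.inr ⟨i, j, hij, Or.inr rfl⟩, ?_⟩
      rw [hspan, hdij, h, h', Pi.single_neg, ← sub_eq_add_neg]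
    · refine ⟨Pi.single i 1 - Pi.single j 1, Or.inr ⟨i, j, hij, Or.inr rfl⟩, ?_⟩
      rw [hspan, hdij, h, h', Pi.single_neg, ← hneg]
      congr 2
      abel
    · refine ⟨Pi.single i 1 + Pi.single j 1, Or.inr ⟨i, j, hij, Or.inl rfl⟩, ?_⟩
      rw [hspan, hdij, h, h', Pi.single_neg, Pi.single_neg, ← hneg]
      congr 2
      abel

end Pool.Agent.Q244.DM
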