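import Pool.Agent.Q244.DM4
import Pool.Agent.Q244.DM5

/-! Translation to additive valuations, and the extension by a skew element. -/

set_option autoImplicit false

open Matrix Polynomial
open scoped NNReal

namespace Pool.Agent.Q244.DM

/-- The map `x ↦ exp (-x)` on `WithTop ℝ`. -/
noncomputable def E (x : WithTop ℝ) : ℝ≥0 :=
  WithTop.recTopCoe 0 (fun r : ℝ => ⟨Real.exp (-r), (Real.exp_pos _).le⟩) x

@[simp] theorem E_top : E ⊤ = 0 := rfl

theorem E_coe (r : ℝ) : E (r : WithTop ℝ) = ⟨Real.exp (-r), (Real.exp_pos _).le⟩ := rfl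

theorem E_coe_coe (r : ℝ) : ((E (r : WithTop ℝ) : ℝ≥0) : ℝ) = Real.exp (-r) := rfl

theorem E_pos (r : ℝ) : 0 < E (r : WithTop ℝ) := by
  have : (0 : ℝ) < E (r : WithTop ℝ) := by
    rw [E_coe_coe]
    exact Real.exp_pos _
  exact_mod_cast this

theorem E_add (x y : WithTop ℝ) : E (x + y) = E x * E y := by
  induction x using WithTop.recTopCoe with
  | top => simp
  | coe x =>
    induction y using WithTop.recTopCoe with
    | top => simp
    | coe y =>
      apply NNReal.eq
      rw [NNReal.coe_mul, ← WithTop.coe_add, E_coe_coe, E_coe_coe, E_coe_coe, ← Real.exp_add]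
      congr 1
      ring

theorem E_le (x y : WithTop ℝ) : E x ≤ E y ↔ y ≤ x := by
  induction x using WithTop.recTopCoe with
  | top => simp
  | coe x =>
    induction y using WithTop.recTopCoe with
    | top =>
      simp only [E_top, nonpos_iff_eq_zero]
      constructor
      · intro h
        exact absurd h (E_pos x).ne'
      · intro h
        exact absurd (top_le_iff.1 h) WithTop.coe_ne_top
    | coe y =>
      rw [← NNReal.coe_le_coe, E_coe_coe, E_coe_coe, Real.exp_le_exp, neg_le_neg_iff,
        WithTop.coe_le_coe]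

theorem E_lt (x y : WithTop ℝ) : E x < E y ↔ y < x := by
  rw [← not_le, ← not_le, E_le]

theorem E_inj (x y : WithTop ℝ) (h : E x = E y) : x = y :=
  le_antisymm ((E_le y x).1 h.symm.le) ((E_le x y).1 h.le)

/-- The multiplicative form of an additive valuation. -/
noncomputable def mulV {K : Type} [Field K] (ν : AddValuation K (WithTop ℝ)) :
    Valuation K ℝ≥0 where
  toFun a := E (ν a)
  map_zero' := by simp
  map_one' := by
    show E (ν 1) = 1
    rw [AddValuation.map_one]
    apply NNReal.eq
    have := E_coe_coe 0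
    simpa using this
  map_mul' a b := by
    show E (ν (a * b)) = E (ν a) * E (ν b)
    rw [AddValuation.map_mul, E_add]
  map_add_le_max' a b := by
    show E (ν (a + b)) ≤ max (E (ν a)) (E (ν b))
    have h := AddValuation.map_add ν a b
    rcases min_le_iff.1 h with h | h
    · exact le_max_of_le_left ((E_le _ _).2 h)
    · exact le_max_of_le_right ((E_le _ _).2 h)

theorem mulV_apply {K : Type} [Field K] (ν : AddValuation K (WithTop ℝ)) (a : K) :
    mulV ν a = E (ν a) := rfl

theorem E_wval {K : Type} [Field K] (ν : AddValuation K (WithTop ℝ)) {n : ℕ}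
    (A : Matrix (Fin n) (Fin n) K) (w : Fin n → ℝ) (S : Finset (Fin n)) :
    E (wval (fun S => ν (pm A S)) w S) =
      gv (mulV ν) A (fun i => E (w i : WithTop ℝ)) S := by
  unfold wval gv
  rw [E_add, mulV_apply]
  congr 1
  apply NNReal.eq
  rw [E_coe_coe, ← Finset.sum_neg_distrib, Real.exp_sum, NNReal.coe_prod]
  rfl

/-- Valuated Delta-matroid from the exchange property of the multiplicative valuation. -/
theorem isVDM_of_gv {K : Type} [Field K] (ν : AddValuation K (WithTop ℝ)) {n : ℕ}
    (A : Matrix (Fin n) (Fin n) K)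
    (hex : ∀ (c : Fin n → ℝ≥0) (_ : ∀ i, 0 < c i) (S T : Finset (Fin n)),
      gv (mulV ν) A c S = gv (mulV ν) A c T →
      (∀ R, R ≠ S → R ≠ T → gv (mulV ν) A c R < gv (mulV ν) A c S) →
      (symmDiff S T).card ≤ 2) :
    IsValuatedDeltaMatroid (fun S => ν (pm A S)) := by
  apply isVDM_of_exchange
  intro w S T hST h
  apply hex (fun i => E (w i : WithTop ℝ)) (fun i => E_pos _) S T
  · rw [← E_wval, ← E_wval, hST]
  · intro R h1 h2
    rw [← E_wval, ← E_wval, E_lt]
    exact h R h1 h2

section

variable {K : Type} [Field K] [StarRing K]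

/-- The involution `p(X) ↦ p*(-X)` of the polynomial ring. -/
noncomputable def tau : K[X] ≃+* K[X] :=
  (Polynomial.mapEquiv (starRingAut : K ≃+* K)).trans (algEquivAevalNegX (R := K)).toRingEquiv

theorem tau_apply (p : K[X]) : tau p = (p.map (starRingEnd K)).comp (-X) := rfl

theorem tau_coeff (p : K[X]) (i : ℕ) : (tau p).coeff i = star (p.coeff i) * (-1) ^ i := by
  rw [tau_apply]
  have h : (-X : K[X]) = C (-1) * X := by simp
  rw [h, comp_C_mul_X_coeff, coeff_map, starRingEnd_apply]

theorem tau_tau (p : K[X]) : tau (tau p) = p := by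
  ext i
  rw [tau_coeff, tau_coeff, star_mul', star_star, star_pow, star_neg, star_one, mul_assoc,
    ← mul_pow]
  simp

theorem gaussV_tau (v : Valuation K ℝ≥0) (c : ℝ≥0) (hc : 0 < c)
    (hv : ∀ a, v (star a) = v a) (p : K[X]) : gaussV v c hc (tau p) = gaussV v c hc p := by
  have hc0 : (0 : ℝ) ≤ c := NNReal.coe_nonneg c
  have hco : ∀ i, v ((tau p).coeff i) = v (p.coeff i) := by
    intro i
    rw [tau_coeff, map_mul, map_pow, v.map_neg, map_one, one_pow, mul_one, hv]
  ext
  rw [gaussV_coe, gaussV_coe]
  apply le_antisymm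
  · obtain ⟨i, hi⟩ := exists_eq_gaussNorm (absv v) (c : ℝ) (tau p)
    rw [hi, absv_apply, hco, ← absv_apply]
    exact p.le_gaussNorm (absv v) hc0 i
  · obtain ⟨i, hi⟩ := exists_eq_gaussNorm (absv v) (c : ℝ) p
    rw [hi, absv_apply, ← hco, ← absv_apply]
    exact (tau p).le_gaussNorm (absv v) hc0 i

/-- The involution of the fraction field of `K[X]` with `X ↦ -X`. -/
noncomputable def starN : FractionRing K[X] ≃+* FractionRing K[X] :=
  IsFractionRing.ringEquivOfRingEquiv (tau (K := K))

theorem starN_algebraMap (p : K[X]) :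
    starN (algebraMap K[X] (FractionRing K[X]) p) =
      algebraMap K[X] (FractionRing K[X]) (tau p) := by
  unfold starN
  rw [IsFractionRing.ringEquivOfRingEquiv_algebraMap]

theorem starN_starN (x : FractionRing K[X]) : starN (starN x) = x := by
  obtain ⟨p, q, hq, rfl⟩ := IsFractionRing.div_surjective (A := K[X]) x
  rw [map_div₀, map_div₀, starN_algebraMap, starN_algebraMap, starN_algebraMap, starN_algebraMap,
    tau_tau, tau_tau]

/-- The star ring structure on the fraction field of `K[X]` with `X ↦ -X`. -/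
@[reducible] noncomputable def starRingN : StarRing (FractionRing K[X]) where
  star := starN
  star_involutive := starN_starN
  star_mul x y := by
    show starN (x * y) = starN y * starN x
    rw [map_mul, mul_comm]
  star_add x y := map_add starN x y

theorem exists_ext_neg (v : Valuation K ℝ≥0) (hv : ∀ a, v (star a) = v a) :
    ∃ (L : Type) (_ : Field L) (_ : StarRing L) (w : Valuation L ℝ≥0) (φ : K →+* L) (t : L),
      (∀ a, w (star a) = w a) ∧ (∀ a, w (φ a) = v a) ∧ (∀ a, star (φ a) = φ (star a)) ∧
      star t = - t ∧ t ≠ 0 := by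
  have hc : (0 : ℝ≥0) < 1 := one_pos
  have hS : nonZeroDivisors K[X] ≤ (gaussV v 1 hc).supp.primeCompl := by
    intro p hp hp'
    rw [SetLike.mem_coe, Valuation.mem_supp_iff] at hp'
    exact gaussV_ne_zero v 1 hc p (nonZeroDivisors.ne_zero hp) hp'
  set w := (gaussV v 1 hc).extendToLocalization hS (FractionRing K[X]) with hw
  refine ⟨FractionRing K[X], inferInstance, starRingN, w,
    (algebraMap K[X] (FractionRing K[X])).comp C, algebraMap K[X] (FractionRing K[X]) X,
    ?_, ?_, ?_, ?_, ?_⟩
  · intro x
    show w (starN x) = w x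
    obtain ⟨p, q, hq, rfl⟩ := IsFractionRing.div_surjective (A := K[X]) x
    rw [map_div₀, map_div₀, map_div₀, starN_algebraMap, starN_algebraMap, hw,
      Valuation.extendToLocalization_apply_map_apply,
      Valuation.extendToLocalization_apply_map_apply,
      Valuation.extendToLocalization_apply_map_apply,
      Valuation.extendToLocalization_apply_map_apply,
      gaussV_tau v 1 hc hv, gaussV_tau v 1 hc hv]
  · intro a
    rw [RingHom.comp_apply, hw, Valuation.extendToLocalization_apply_map_apply, gaussV_C]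
  · intro a
    show starN (algebraMap K[X] (FractionRing K[X]) (C a)) =
      algebraMap K[X] (FractionRing K[X]) (C (star a))
    rw [starN_algebraMap, tau_apply, map_C, C_comp, starRingEnd_apply]
  · show starN (algebraMap K[X] (FractionRing K[X]) X) = - algebraMap K[X] (FractionRing K[X]) X
    rw [starN_algebraMap, tau_apply, map_X, X_comp, map_neg]
  · intro h
    rw [map_eq_zero_iff _ (IsFractionRing.injective K[X] (FractionRing K[X]))] at h
    exact X_ne_zero h

variable {ι : Type} [Fintype ι] [DecidableEq ι]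

/-- Exchange property for skew-Hermitian plus Hermitian of rank one. -/
theorem exchange_herm (v : Valuation K ℝ≥0) (hv : ∀ a, v (star a) = v a) (B C : Matrix ι ι K)
    (hB : Bᴴ = -B) (hC : Cᴴ = C) (hCr : C.rank ≤ 1) (c : ι → ℝ≥0) (hc : ∀ i, 0 < c i)
    (S T : Finset ι) (hST : gv v (B + C) c S = gv v (B + C) c T)
    (h : ∀ R, R ≠ S → R ≠ T → gv v (B + C) c R < gv v (B + C) c S) :
    (symmDiff S T).card ≤ 2 := by
  obtain ⟨L, iL, iS, w, φ, t, hw1, hw2, hw3, hw4, hw5⟩ := exists_ext_neg v hv
  obtain ⟨a, b, hab⟩ := exists_vecMulVec C hCr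
  have hB' : (B.map φ)ᴴ = -(B.map φ) := by
    ext i j
    rw [conjTranspose_apply, map_apply, hw3, Matrix.neg_apply, map_apply, ← map_neg]
    congr 1
    have := congrFun (congrFun hB i) j
    rwa [conjTranspose_apply, Matrix.neg_apply] at this
  have hC' : (C.map φ)ᴴ = C.map φ := by
    ext i j
    rw [conjTranspose_apply, map_apply, hw3, map_apply]
    congr 1
    have := congrFun (congrFun hC i) j
    rwa [conjTranspose_apply] at this
  have hC'' : (t • C.map φ)ᴴ = -(t • C.map φ) := by
    rw [conjTranspose_smul, hC', hw4, neg_smul]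
  have hrank : (t • C.map φ).rank ≤ 1 := by
    have : t • C.map φ = vecMulVec (fun i => t * φ (a i)) (fun i => φ (b i)) := by
      ext i j
      rw [hab, Matrix.smul_apply, map_apply, vecMulVec_apply, vecMulVec_apply, map_mul,
        smul_eq_mul, mul_assoc]
    rw [this]
    exact rank_vecMulVec_le _ _
  have hA : B.map φ + t⁻¹ • (t • C.map φ) = (B + C).map φ := by
    rw [smul_smul, inv_mul_cancel₀ hw5, one_smul]
    ext i j
    simp
  have hg : ∀ R, gv w (B.map φ + t⁻¹ • (t • C.map φ)) c R = gv v (B + C) c R := by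
    intro R
    unfold gv
    rw [hA, pm_map, hw2]
  apply exchange_affine w hw1 (B.map φ) (t • C.map φ) hB' hC'' hrank t⁻¹ c hc S T
  · rw [hg, hg, hST]
  · intro R h1 h2
    rw [hg, hg]
    exact h R h1 h2

end

end Pool.Agent.Q244.DM
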